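import Mathlib

/-!
# Counting functions from a fixed set to a large set of letters
-/

set_option autoImplicit false

namespace Run7.h494.Iter

open Finset

variable {V O : Type} [Fintype V] [DecidableEq V] [Fintype O] [DecidableEq O]

/-- the number of functions with a given value at `v` and a value of `F` at `u` -/
theorem card_two (v u : V) (hvu : v ≠ u) (b : O) (F : Finset O) :
    (univ.filter fun φ : V → O => φ v = b ∧ φ u ∈ F).card ≤
      F.card * Fintype.card O ^ (Fintype.card V - 2) := by
  classical
  have h1 : (univ.filter fun φ : V → O => φ v = b ∧ φ u ∈ F) ⊆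
      Fintype.piFinset (fun w => if w = v then {b} else if w = u then F else univ) := by
    intro φ hφ
    rw [mem_filter] at hφ
    rw [Fintype.mem_piFinset]
    intro w
    by_cases h2 : w = v
    · subst h2; simp [hφ.2.1]
    · by_cases h3 : w = u
      · subst h3; simp [h2, hφ.2.2]
      · simp [h2, h3]
  refine (card_le_card h1).trans (le_of_eq ?_)
  rw [Fintype.card_piFinset, ← mul_prod_erase univ _ (mem_univ v),
    ← mul_prod_erase (univ.erase v) _ (mem_erase.2 ⟨hvu.symm, mem_univ u⟩)]
  have h4 : ∀ w ∈ (univ.erase v).erase u,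
      (if w = v then {b} else if w = u then F else (univ : Finset O)).card = Fintype.card O := by
    intro w hw
    rw [mem_erase, mem_erase] at hw
    rw [if_neg hw.2.1, if_neg hw.1, card_univ]
  rw [prod_congr rfl h4, prod_const, card_erase_of_mem (mem_erase.2 ⟨hvu.symm, mem_univ u⟩),
    card_erase_of_mem (mem_univ v), card_univ, if_pos rfl, if_neg hvu.symm, if_pos rfl,
    card_singleton, one_mul, Nat.sub_sub]

/-- A large set of functions with a given value at `v` contains one which avoids a small list of
letters at every other vertex. -/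
theorem exists_avoid (S : Finset (V → O)) (v : V) (b : O) (hS : ∀ φ ∈ S, φ v = b)
    (hbig : Fintype.card V ^ 2 * Fintype.card O ^ (Fintype.card V - 2) < S.card)
    (F : V → Finset O) (hF : ∀ u, (F u).card ≤ Fintype.card V) :
    ∃ φ ∈ S, ∀ u, u ≠ v → φ u ∉ F u := by
  classical
  by_contra hcon
  push Not at hcon
  have h1 : S ⊆ (univ.erase v).biUnion
      (fun u => univ.filter fun φ : V → O => φ v = b ∧ φ u ∈ F u) := by
    intro φ hφ
    obtain ⟨u, hu, hu'⟩ := hcon φ hφ
    rw [mem_biUnion]
    exact ⟨u, mem_erase.2 ⟨hu, mem_univ u⟩, mem_filter.2 ⟨mem_univ _, hS φ hφ, hu'⟩⟩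
  have h2 : S.card ≤ ∑ u ∈ univ.erase v,
      Fintype.card V * Fintype.card O ^ (Fintype.card V - 2) := by
    refine (card_le_card h1).trans (card_biUnion_le.trans (sum_le_sum ?_))
    intro u hu
    refine (card_two v u (mem_erase.1 hu).1.symm b (F u)).trans ?_
    exact Nat.mul_le_mul_right _ (hF u)
  have h3 : (univ.erase v).card ≤ Fintype.card V := (card_erase_le).trans (le_of_eq card_univ)
  rw [sum_const, smul_eq_mul] at h2
  have h4 : (univ.erase v).card * (Fintype.card V * Fintype.card O ^ (Fintype.card V - 2)) ≤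
      Fintype.card V * (Fintype.card V * Fintype.card O ^ (Fintype.card V - 2)) :=
    Nat.mul_le_mul_right _ h3
  have h5 : Fintype.card V * (Fintype.card V * Fintype.card O ^ (Fintype.card V - 2)) =
      Fintype.card V ^ 2 * Fintype.card O ^ (Fintype.card V - 2) := by ring
  omega

variable {E : Type} [Fintype E] [DecidableEq E]

/-- the letters `b` such that no colour is used often on functions with value `b` at `v` -/
def rare (col : (V → O) → E) (v : V) : Finset O :=
  univ.filter fun b => ∀ e, (univ.filter fun φ : V → O => col φ = e ∧ φ v = b).card ≤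
    Fintype.card V ^ 2 * Fintype.card O ^ (Fintype.card V - 2)

/-- The pigeonhole argument: some vertex has few rare letters. -/
theorem exists_vertex (W : Finset V) (col : (V → O) → E)
    (hcol : ∀ φ ψ, col φ = col ψ → ∃ u ∈ W, ∃ v ∈ W, φ u = ψ v)
    (hn : 2 ≤ Fintype.card V)
    (hm : 2 ^ Fintype.card V * Fintype.card V ^ 4 * Fintype.card E < Fintype.card O ^ 2) :
    ∃ v ∈ W, 2 * (rare col v).card < Fintype.card O := by
  classical
  by_contra hcon
  push Not at hcon
  set n := Fintype.card V with hn'
  set m := Fintype.card O with hm'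
  set K := n ^ 2 * m ^ (n - 2) with hK
  let P : Finset (V → O) := Fintype.piFinset (fun v => if v ∈ W then rare col v else univ)
  have h1 : m ^ n ≤ 2 ^ n * P.card := by
    have h2 : ∀ v ∈ (univ : Finset V), m ≤ 2 * (if v ∈ W then rare col v else univ).card := by
      intro v _
      split_ifs with h
      · exact hcon v h
      · rw [card_univ]; omega
    have h3 := prod_le_prod' h2
    rw [prod_const, prod_mul_distrib, prod_const, card_univ] at h3
    rw [Fintype.card_piFinset]
    exact h3
  have h4 : ∀ e : E, (P.filter fun φ => col φ = e).card ≤ n ^ 2 * K := by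
    intro e
    rcases (P.filter fun φ => col φ = e).eq_empty_or_nonempty with h5 | ⟨ψ, hψ⟩
    · rw [h5, card_empty]; exact Nat.zero_le _
    · have h6 : (P.filter fun φ => col φ = e) ⊆ (W ×ˢ W).biUnion (fun p =>
          P.filter fun φ => col φ = e ∧ φ p.1 = ψ p.2) := by
        intro φ hφ
        rw [mem_filter] at hφ hψ
        obtain ⟨u, hu, v, hv, huv⟩ := hcol φ ψ (hφ.2.trans hψ.2.symm)
        rw [mem_biUnion]
        exact ⟨(u, v), mem_product.2 ⟨hu, hv⟩, mem_filter.2 ⟨hφ.1, hφ.2, huv⟩⟩
      have h7 : ∀ p ∈ W ×ˢ W, (P.filter fun φ => col φ = e ∧ φ p.1 = ψ p.2).card ≤ K := by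
        intro p hp
        rcases (P.filter fun φ => col φ = e ∧ φ p.1 = ψ p.2).eq_empty_or_nonempty with h8 | ⟨φ, hφ⟩
        · rw [h8, card_empty]; exact Nat.zero_le _
        · rw [mem_filter] at hφ
          have h9 : φ p.1 ∈ rare col p.1 := by
            have := Fintype.mem_piFinset.1 hφ.1 p.1
            rw [if_pos (mem_product.1 hp).1] at this
            exact this
          rw [hφ.2.2] at h9
          have h10 := (mem_filter.1 h9).2 e
          refine le_trans (card_le_card ?_) h10
          intro χ hχ
          rw [mem_filter] at hχ ⊢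
          exact ⟨mem_univ _, hχ.2⟩
      have h11 : (W ×ˢ W).card ≤ n ^ 2 := by
        rw [card_product, sq]
        exact Nat.mul_le_mul (card_le_univ W) (card_le_univ W)
      calc (P.filter fun φ => col φ = e).card
          ≤ ∑ p ∈ W ×ˢ W, K := (card_le_card h6).trans (card_biUnion_le.trans (sum_le_sum h7))
        _ = (W ×ˢ W).card * K := by rw [sum_const, smul_eq_mul]
        _ ≤ n ^ 2 * K := Nat.mul_le_mul_right _ h11
  have h12 : P.card ≤ Fintype.card E * (n ^ 2 * K) := by
    have h13 : P.card = ∑ e : E, (P.filter fun φ => col φ = e).card :=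
      card_eq_sum_card_fiberwise (fun φ _ => mem_univ (col φ))
    rw [h13]
    calc ∑ e : E, (P.filter fun φ => col φ = e).card ≤ ∑ _e : E, n ^ 2 * K :=
          sum_le_sum (fun e _ => h4 e)
      _ = Fintype.card E * (n ^ 2 * K) := by rw [sum_const, smul_eq_mul, card_univ]
  have hm0 : 0 < m := by
    rcases Nat.eq_zero_or_pos m with h | h
    · rw [h] at hm; simp at hm
    · exact h
  have h14 : m ^ n = m ^ 2 * m ^ (n - 2) := by
    rw [← pow_add]; congr 1; omega
  have h15 : m ^ 2 * m ^ (n - 2) ≤ (2 ^ n * n ^ 4 * Fintype.card E) * m ^ (n - 2) := by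
    calc m ^ 2 * m ^ (n - 2) = m ^ n := h14.symm
      _ ≤ 2 ^ n * P.card := h1
      _ ≤ 2 ^ n * (Fintype.card E * (n ^ 2 * K)) := Nat.mul_le_mul_left _ h12
      _ = (2 ^ n * n ^ 4 * Fintype.card E) * m ^ (n - 2) := by rw [hK]; ring
  have h16 := Nat.le_of_mul_le_mul_right h15 (Nat.pow_pos hm0)
  omega

/-- a letter which is not rare -/
theorem of_not_rare {col : (V → O) → E} {v : V} {b : O} (h : b ∉ rare col v) :
    ∃ e, Fintype.card V ^ 2 * Fintype.card O ^ (Fintype.card V - 2) <
      (univ.filter fun φ : V → O => col φ = e ∧ φ v = b).card := by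
  unfold rare at h
  rw [mem_filter] at h
  push Not at h
  exact h (mem_univ b)

end Run7.h494.Iter
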