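import Pool.Agent.Run7.h494.Iter.Main

/-!
# The Poljak-Rodl function is sublinear: conclusion
-/

set_option autoImplicit false

namespace Run7.h494.Iter

open Finset SimpleGraph Run7.h494

/-- A colouring of `G[K_q]` needs many colours when `G` has small independence ratio. -/
theorem blow_bound {V : Type} [Fintype V] (G : SimpleGraph V) (k q N : ℕ)
    (hk : ∀ S : Finset V, G.IsIndepSet (S : Set V) → k * S.card < Fintype.card V)
    (hq : 0 < q) (h : (blow G q).Colorable N) : k * q < N := by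
  classical
  obtain ⟨C⟩ := h
  let S : Fin N → Finset V := fun c => univ.filter fun v => ∃ i, C (v, i) = c
  have hV : 0 < Fintype.card V := by
    have := hk ∅ (by simp [IsIndepSet])
    omega
  have h1 : ∀ c, k * (S c).card < Fintype.card V := by
    intro c
    apply hk
    intro u hu v hv _ huv
    obtain ⟨i, hi⟩ := (mem_filter.1 (mem_coe.1 hu)).2
    obtain ⟨j, hj⟩ := (mem_filter.1 (mem_coe.1 hv)).2
    exact C.valid (show (blow G q).Adj (u, i) (v, j) from Or.inl huv) (hi.trans hj.symm)
  have h2 : ∀ c, (univ.filter fun x : V × Fin q => C x = c).card ≤ (S c).card := by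
    intro c
    apply card_le_card_of_injOn Prod.fst
    · intro x hx
      have hx' := (mem_filter.1 (mem_coe.1 hx)).2
      exact mem_coe.2 (mem_filter.2 ⟨mem_univ _, x.2, hx'⟩)
    · intro x hx y hy hxy
      have hx' := (mem_filter.1 (mem_coe.1 hx)).2
      have hy' := (mem_filter.1 (mem_coe.1 hy)).2
      by_contra hne
      have h3 : x.2 ≠ y.2 := fun h => hne (Prod.ext hxy h)
      exact C.valid (show (blow G q).Adj x y from Or.inr ⟨hxy, h3⟩) (hx'.trans hy'.symm)
  have h3 : Fintype.card V * q = ∑ c : Fin N, (univ.filter fun x : V × Fin q => C x = c).card := by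
    rw [← card_eq_sum_card_fiberwise (fun x _ => mem_univ (C x)), card_univ, Fintype.card_prod,
      Fintype.card_fin]
  have hN : 0 < N := by
    rcases Nat.eq_zero_or_pos N with h | h
    · subst h
      have : Fintype.card V * q = 0 := by rw [h3]; simp
      rcases Nat.mul_eq_zero.1 this with h | h <;> omega
    · exact h
  have h4 : k * (Fintype.card V * q) < N * Fintype.card V := by
    rw [h3, mul_sum]
    have : Nonempty (Fin N) := ⟨⟨0, hN⟩⟩
    calc ∑ c : Fin N, k * (univ.filter fun x : V × Fin q => C x = c).card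
        ≤ ∑ c : Fin N, k * (S c).card := sum_le_sum (fun c _ => Nat.mul_le_mul_left _ (h2 c))
      _ < ∑ _c : Fin N, Fintype.card V :=
          sum_lt_sum_of_nonempty univ_nonempty (fun c _ => h1 c)
      _ = N * Fintype.card V := by rw [sum_const, card_univ, Fintype.card_fin, smul_eq_mul]
  have h5 : (k * q) * Fintype.card V < N * Fintype.card V := by
    calc (k * q) * Fintype.card V = k * (Fintype.card V * q) := by ring
      _ < N * Fintype.card V := h4
  exact Nat.lt_of_mul_lt_mul_right h5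

/-- For every `A` and all large `c` there are two finite graphs of chromatic number at least `A c`
whose product is `c`-colourable. -/
theorem pair_linear (A : ℕ) (hA : 1 ≤ A) : ∃ c₀ : ℕ, ∀ c : ℕ, c₀ ≤ c → Pair (A * c) c := by
  classical
  obtain ⟨V, iV, G, hα, hcyc⟩ := Pool.Agent.R50.ErdosIndep.erdos_indep (32 * A ^ 2) 3
    (by have : 0 < A ^ 2 := Nat.pow_pos hA; omega)
  have hG3 := Pool.Agent.R50.ErdosIndep.triangleFree_of_girth le_rfl hcyc
  have hG : ∀ a b c, G.Adj a b → G.Adj a c → ¬ G.Adj b c := by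
    intro a b c hab hac hbc
    exact hG3 {a, b, c} (is3Clique_iff.2 ⟨a, b, c, hab, hac, hbc, rfl⟩)
  have hV : 0 < Fintype.card V := by
    have := hα ∅ (by simp [IsIndepSet])
    omega
  have hn : 2 ≤ Fintype.card V := by
    obtain ⟨v⟩ := Fintype.card_pos_iff.1 hV
    have := hα {v} (by simp [IsIndepSet])
    rw [card_singleton] at this
    have : 0 < A ^ 2 := Nat.pow_pos hA
    omega
  refine ⟨16 * A + 4 * (2 ^ Fintype.card V * Fintype.card V ^ 4) * A + 1, fun c hc => ?_⟩
  have hc1 : 16 * A ≤ c := by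
    have := Nat.zero_le (4 * (2 ^ Fintype.card V * Fintype.card V ^ 4) * A)
    omega
  have hc2 : 4 * (2 ^ Fintype.card V * Fintype.card V ^ 4) * A ≤ c := by omega
  set M := 2 ^ Fintype.card V * Fintype.card V ^ 4 with hM
  set q := c / (16 * A) with hq
  have hA16 : 0 < 16 * A := by omega
  have hq1 : 1 ≤ q := (Nat.one_le_div_iff hA16).2 hc1
  have hq2 : 16 * A * q ≤ c := Nat.mul_div_le c (16 * A)
  have hq3 : c < 16 * A * (q + 1) := Nat.lt_mul_div_succ c hA16
  have hq4 : A * c ≤ 32 * A ^ 2 * q := by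
    have h1 : c ≤ 32 * A * q := by nlinarith
    calc A * c ≤ A * (32 * A * q) := Nat.mul_le_mul_left _ h1
      _ = 32 * A ^ 2 * q := by ring
  set m := c - 8 * A * q with hm
  have hm1 : c ≤ 2 * m := by
    have : 2 * (8 * A * q) ≤ c := by
      calc 2 * (8 * A * q) = 16 * A * q := by ring
        _ ≤ c := hq2
    omega
  have hm2 : m + 8 * A * q = c := by
    have : 8 * A * q ≤ c := by
      calc 8 * A * q ≤ 16 * A * q := by nlinarith
        _ ≤ c := hq2
    omega
  have hcard : Fintype.card (Fin m ⊕ (Fin (4 * A) × Bool) × Fin q) = c := by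
    rw [Fintype.card_sum, Fintype.card_prod, Fintype.card_prod, Fintype.card_fin,
      Fintype.card_fin, Fintype.card_fin, Fintype.card_bool, ← hm2]
    ring
  have hcA : c ≤ A * c := Nat.le_mul_of_pos_left c hA
  have hH : ¬ (blow G q).Colorable (Fintype.card (Fin m ⊕ (Fin (4 * A) × Bool) × Fin q)) := by
    rw [hcard]
    intro h
    have := blow_bound G _ q c hα hq1 h
    omega
  refine ⟨(V × Fin q → Fin m ⊕ (Fin (4 * A) × Bool) × Fin q), V × Fin q, inferInstance,
    inferInstance, expL (blow G q) _, blow G q, ?_, ?_, ?_⟩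
  · rw [le_chromaticNumber_iff_colorable]
    intro D hD
    by_contra hlt
    push Not at hlt
    have hDc : D < A * c := by exact_mod_cast hlt
    obtain ⟨C⟩ := hD
    have hmm : 2 ^ Fintype.card V * Fintype.card V ^ 4 * D < Fintype.card (Fin m) ^ 2 := by
      rw [Fintype.card_fin, ← hM]
      have hMpos : 0 < M := by rw [hM]; positivity
      have h1 : M * D < M * (A * c) := (Nat.mul_lt_mul_left hMpos).2 hDc
      have h2 : 4 * (M * (A * c)) ≤ c * c := by
        calc 4 * (M * (A * c)) = (4 * M * A) * c := by ring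
          _ ≤ c * c := Nat.mul_le_mul_right _ hc2
      have h3 : c * c ≤ 4 * m ^ 2 := by
        calc c * c ≤ (2 * m) * (2 * m) := Nat.mul_le_mul hm1 hm1
          _ = 4 * m ^ 2 := by ring
      omega
    obtain ⟨Y, σ, E, _, _, h3, _⟩ := chain G hG hn (by omega : 0 < 4 * A) hmm hH C (4 * A) le_rfl
    rw [Fintype.card_fin] at h3
    have h5 : E.card ≤ D := by
      have := card_le_univ E
      rwa [Fintype.card_fin] at this
    have h6 : 2 * (A * c) ≤ 4 * A * m := by
      calc 2 * (A * c) ≤ 2 * (A * (2 * m)) := by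
            apply Nat.mul_le_mul_left
            exact Nat.mul_le_mul_left _ hm1
        _ = 4 * A * m := by ring
    omega
  · rw [le_chromaticNumber_iff_colorable]
    intro N hN
    have := blow_bound G _ q N hα hq1 hN
    have h1 : A * c ≤ N := by omega
    exact_mod_cast h1
  · have := tprod_expL_colorable (L := Fin m ⊕ (Fin (4 * A) × Bool) × Fin q) (blow G q)
    rwa [hcard] at this

/-- **The Poljak-Rodl function is sublinear.** -/
theorem polRod_sublinear (ε : ℝ) (hε : 0 < ε) : ∃ N : ℕ, ∀ n : ℕ, N ≤ n →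
    (polRod n : ℝ) ≤ ε * n := by
  obtain ⟨A, hA⟩ := exists_nat_gt (2 / ε)
  have hA0 : (0 : ℝ) < A := lt_trans (by positivity) hA
  have hA1 : 1 ≤ A := by
    have : 0 < A := by exact_mod_cast hA0
    omega
  obtain ⟨c₀, hc₀⟩ := pair_linear A hA1
  obtain ⟨B, hB⟩ := exists_nat_gt (2 / ε)
  refine ⟨A * c₀ + B, fun n hn => ?_⟩
  have h1 : c₀ ≤ n / A := by
    rw [Nat.le_div_iff_mul_le hA1]
    calc c₀ * A = A * c₀ := mul_comm _ _
      _ ≤ n := by omega
  have h2 : n ≤ A * (n / A + 1) := (Nat.lt_mul_div_succ n hA1).le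
  have h3 : polRod n ≤ n / A + 1 :=
    (polRod_mono h2).trans ((polRod_le_iff _ _).2 (hc₀ (n / A + 1) (by omega)))
  have h4 : ((n / A : ℕ) : ℝ) ≤ (n : ℝ) / A := Nat.cast_div_le
  have h5 : (n : ℝ) / A ≤ ε / 2 * n := by
    rw [div_le_iff₀ hA0]
    have h6 : 1 ≤ ε / 2 * A := by
      have := (div_lt_iff₀ hε).1 hA
      linarith
    have hn0 : (0 : ℝ) ≤ n := Nat.cast_nonneg n
    nlinarith
  have h7 : 1 ≤ ε / 2 * n := by
    have h8 : (B : ℝ) ≤ n := by exact_mod_cast (by omega : B ≤ n)
    have h9 := (div_lt_iff₀ hε).1 hB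
    nlinarith
  have h10 : (polRod n : ℝ) ≤ ((n / A : ℕ) : ℝ) + 1 := by exact_mod_cast h3
  linarith

theorem exists_fin (n : ℕ) : ∃ (a b : ℕ) (G : SimpleGraph (Fin a)) (H : SimpleGraph (Fin b)),
    G.chromaticNumber = (n : ℕ∞) ∧ H.chromaticNumber = (n : ℕ∞) ∧
    (tprod G H).chromaticNumber = (polRod n : ℕ∞) := by
  classical
  obtain ⟨V, W, iV, iW, G, H, h1, h2, h3⟩ := Nat.sInf_mem (polRod_nonempty n)
  let eV := Fintype.equivFin V
  let eW := Fintype.equivFin W
  let G' : SimpleGraph (Fin (Fintype.card V)) := G.comap eV.symm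
  let H' : SimpleGraph (Fin (Fintype.card W)) := H.comap eW.symm
  have e1 : G' ≃g G := ⟨eV.symm, Iff.rfl⟩
  have e2 : H' ≃g H := ⟨eW.symm, Iff.rfl⟩
  have e3 : tprod G' H' ≃g tprod G H := by
    refine ⟨(Equiv.prodCongr eV.symm eW.symm), ?_⟩
    intro p q
    rw [tprod_adj, tprod_adj]
    exact Iff.rfl
  refine ⟨_, _, G', H', ?_, ?_, ?_⟩
  · rw [chromaticNumber_congr e1, h1]
  · rw [chromaticNumber_congr e2, h2]
  · rw [chromaticNumber_congr e3, h3]
    rfl

end Run7.h494.Iter
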