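import Pool.Agent.Run7.h494.Iter.Count
import Pool.Agent.Run7.h494.Dich
import Pool.Agent.R50.ErdosIndep

/-!
# The Poljak-Rodl function is sublinear

Let `G` be a triangle-free graph with small independence ratio and `H = G[K_q]`.  In a colouring
of the exponential graph of `H` with few colours, most letters are robust at some vertex.  After
filling the closed neighbourhood of this vertex with private letters, the robust colours are lost,
and one continues with the remaining vertices.
-/

set_option autoImplicit false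
set_option linter.unusedSectionVars false

namespace Run7.h494.Iter

open Finset SimpleGraph Run7.h494

/-- The exponential graph with letters `L`, without its loops. -/
def expL {X : Type} (H : SimpleGraph X) (L : Type) : SimpleGraph (X → L) where
  Adj φ ψ := φ ≠ ψ ∧ ∀ x y, H.Adj x y → φ x ≠ ψ y
  symm := ⟨fun _ _ h => ⟨h.1.symm, fun x y hxy => (h.2 y x hxy.symm).symm⟩⟩
  loopless := ⟨fun _ h => h.1 rfl⟩

theorem tprod_expL_colorable {X L : Type} [Fintype L] (H : SimpleGraph X) :
    (tprod (expL H L) H).Colorable (Fintype.card L) := by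
  have C : (tprod (expL H L) H).Coloring L := Coloring.mk (fun p => p.1 p.2) (by
    intro p q hpq
    rw [tprod_adj] at hpq
    exact hpq.1.2 _ _ hpq.2)
  exact C.colorable

theorem expL_ne {X L K : Type} [Fintype L] {H : SimpleGraph X}
    (hH : ¬ H.Colorable (Fintype.card L)) (C : (expL H L).Coloring K) {φ ψ : X → L}
    (h : ∀ x y, H.Adj x y → φ x ≠ ψ y) : C φ ≠ C ψ := by
  by_cases hφ : φ = ψ
  · exfalso
    subst hφ
    have D : H.Coloring L := Coloring.mk φ (fun {u v} huv => h u v huv)
    exact hH D.colorable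
  · exact C.valid ⟨hφ, h⟩

/-- the graph `G[K_q]` -/
def blow {V : Type} (G : SimpleGraph V) (q : ℕ) : SimpleGraph (V × Fin q) where
  Adj x y := G.Adj x.1 y.1 ∨ (x.1 = y.1 ∧ x.2 ≠ y.2)
  symm := ⟨fun _ _ h => h.imp (fun h => h.symm) (fun h => ⟨h.1.symm, h.2.symm⟩)⟩
  loopless := ⟨fun _ h => h.elim (fun h => h.ne rfl) (fun h => h.2 rfl)⟩

theorem blow_adj {V : Type} {G : SimpleGraph V} {q : ℕ} {x y : V × Fin q} :
    (blow G q).Adj x y ↔ G.Adj x.1 y.1 ∨ (x.1 = y.1 ∧ x.2 ≠ y.2) := Iff.rfl

section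

variable {V O : Type} [Fintype V] [DecidableEq V] [Fintype O] [DecidableEq O]
variable {q t : ℕ}

/-- private letters on `Y`, the letters of `φ` elsewhere -/
def fill (q : ℕ) (Y : Finset V) (σ : V → Fin t × Bool) (φ : V → O) :
    V × Fin q → O ⊕ (Fin t × Bool) × Fin q :=
  fun x => if x.1 ∈ Y then Sum.inr (σ x.1, x.2) else Sum.inl (φ x.1)

theorem fill_mem {Y : Finset V} {σ : V → Fin t × Bool} {φ : V → O} {x : V × Fin q}
    (h : x.1 ∈ Y) : fill q Y σ φ x = Sum.inr (σ x.1, x.2) := if_pos h

theorem fill_not {Y : Finset V} {σ : V → Fin t × Bool} {φ : V → O} {x : V × Fin q}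
    (h : x.1 ∉ Y) : fill q Y σ φ x = Sum.inl (φ x.1) := if_neg h

variable (G : SimpleGraph V)

/-- Two filled functions are compatible when they are compatible outside. -/
theorem fill_ne {Y Z : Finset V} {σ τ : V → Fin t × Bool} {φ ψ : V → O}
    (hYZ : Y ⊆ Z) (hστ : ∀ u ∈ Y, τ u = σ u)
    (hτ : ∀ u ∈ Z, ∀ v ∈ Z, G.Adj u v → τ u ≠ τ v)
    (h : ∀ u, u ∉ Y → ∀ w, w ∉ Z → (u = w ∨ G.Adj u w) → φ u ≠ ψ w)
    (x y : V × Fin q) (hxy : (blow G q).Adj x y) : fill q Y σ φ x ≠ fill q Z τ ψ y := by
  rw [blow_adj] at hxy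
  by_cases hx : x.1 ∈ Y
  · rw [fill_mem hx]
    by_cases hy : y.1 ∈ Z
    · rw [fill_mem hy]
      intro hcon
      have h1 := Sum.inr.inj hcon
      have h2 : σ x.1 = τ y.1 := (Prod.mk.inj h1).1
      have h3 : x.2 = y.2 := (Prod.mk.inj h1).2
      rcases hxy with hxy | hxy
      · apply hτ x.1 (hYZ hx) y.1 hy hxy
        rw [hστ x.1 hx, h2]
      · exact hxy.2 h3
    · rw [fill_not hy]
      exact Sum.inr_ne_inl
  · rw [fill_not hx]
    by_cases hy : y.1 ∈ Z
    · rw [fill_mem hy]
      exact Sum.inl_ne_inr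
    · rw [fill_not hy]
      intro hcon
      refine h x.1 hx y.1 hy ?_ (Sum.inl.inj hcon)
      rcases hxy with hxy | hxy
      · exact Or.inr hxy
      · exact Or.inl hxy.1

/-- the letters of `χ` near `u`, outside `Z` -/
noncomputable def near (Z : Finset V) (χ : V → O) (u : V) : Finset O :=
  open Classical in (univ.filter fun w => w ∉ Z ∧ (u = w ∨ G.Adj u w)).image χ

theorem near_card (Z : Finset V) (χ : V → O) (u : V) :
    (near G Z χ u).card ≤ Fintype.card V := by
  classical
  unfold near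
  exact card_image_le.trans (card_le_univ _)

theorem ne_of_not_near {Z : Finset V} {χ : V → O} {u w : V} (hw : w ∉ Z)
    (h : u = w ∨ G.Adj u w) {b : O} (hb : b ∉ near G Z χ u) : b ≠ χ w := by
  classical
  rintro rfl
  apply hb
  unfold near
  exact mem_image.2 ⟨w, mem_filter.2 ⟨mem_univ _, hw, h⟩, rfl⟩

/-- The main induction. -/
theorem chain (hG : ∀ a b c, G.Adj a b → G.Adj a c → ¬ G.Adj b c)
    (hn : 2 ≤ Fintype.card V) (ht : 0 < t) {D : ℕ}
    (hm : 2 ^ Fintype.card V * Fintype.card V ^ 4 * D < Fintype.card O ^ 2)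
    (hH : ¬ (blow G q).Colorable (Fintype.card (O ⊕ (Fin t × Bool) × Fin q)))
    (C : (expL (blow G q) (O ⊕ (Fin t × Bool) × Fin q)).Coloring (Fin D)) (j : ℕ) (hj : j ≤ t) :
    ∃ (Y : Finset V) (σ : V → Fin t × Bool) (E : Finset (Fin D)),
      (∀ u ∈ Y, (σ u).1.val < j) ∧
      (∀ u ∈ Y, ∀ v ∈ Y, G.Adj u v → σ u ≠ σ v) ∧
      j * Fintype.card O ≤ 2 * E.card ∧
      (∀ (Z : Finset V) (τ : V → Fin t × Bool) (φ : V → O), Y ⊆ Z → (∀ u ∈ Y, τ u = σ u) →
        (∀ u ∈ Z, ∀ v ∈ Z, G.Adj u v → τ u ≠ τ v) → C (fill q Z τ φ) ∉ E) := by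
  classical
  induction j with
  | zero => exact ⟨∅, fun _ => (⟨0, ht⟩, true), ∅, by simp, by simp, by simp, by simp⟩
  | succ j ih =>
    obtain ⟨Y, σ, E, h1, h2, h3, h4⟩ := ih (by omega)
    have hO : 0 < Fintype.card O := by
      rcases Nat.eq_zero_or_pos (Fintype.card O) with h | h
      · rw [h] at hm; simp at hm
      · exact h
    have hOne : Nonempty O := Fintype.card_pos_iff.1 hO
    obtain ⟨o⟩ := hOne
    -- there is a vertex outside `Y`
    have hY : ∃ u, u ∉ Y := by
      by_contra hcon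
      push Not at hcon
      have D : (blow G q).Coloring (O ⊕ (Fin t × Bool) × Fin q) :=
        Coloring.mk (fill q Y σ (fun _ => o)) (by
          intro x y hxy
          exact fill_ne G (Finset.Subset.refl Y) (fun _ _ => rfl) h2
            (fun u hu => absurd (hcon u) hu) x y hxy)
      exact hH D.colorable
    obtain ⟨u₀, hu₀⟩ := hY
    -- the colouring of the functions
    let col : (V → O) → Fin D := fun φ => C (fill q Y σ φ)
    have hcol : ∀ φ ψ, col φ = col ψ → ∃ u ∈ Yᶜ, ∃ v ∈ Yᶜ, φ u = ψ v := by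
      intro φ ψ hφψ
      by_contra hcon
      push Not at hcon
      refine expL_ne hH C ?_ hφψ
      exact fill_ne G (Finset.Subset.refl Y) (fun _ _ => rfl) h2
        (fun u hu w hw _ => hcon u (mem_compl.2 hu) w (mem_compl.2 hw))
    obtain ⟨v, hvY, hv⟩ := exists_vertex Yᶜ col hcol hn (by rw [Fintype.card_fin]; exact hm)
    rw [mem_compl] at hvY
    -- the robust letters
    let B : Finset O := (rare col v)ᶜ
    have hB : ∀ b : O, ∃ e : Fin D, b ∈ B → Fintype.card V ^ 2 *
        Fintype.card O ^ (Fintype.card V - 2) <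
        (univ.filter fun φ : V → O => col φ = e ∧ φ v = b).card := by
      intro b
      by_cases hb : b ∈ B
      · obtain ⟨e, he⟩ := of_not_rare (mem_compl.1 hb)
        exact ⟨e, fun _ => he⟩
      · exact ⟨col (fun _ => o), fun h => absurd h hb⟩
    choose e he using hB
    let Y' : Finset V := univ.filter fun u => u ∈ Y ∨ u = v ∨ G.Adj v u
    let σ' : V → Fin t × Bool := fun u => if u ∈ Y then σ u else (⟨j, by omega⟩, decide (u = v))
    have hYY' : Y ⊆ Y' := fun u hu => mem_filter.2 ⟨mem_univ _, Or.inl hu⟩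
    have hσ' : ∀ u ∈ Y, σ' u = σ u := fun u hu => if_pos hu
    have hσ'' : ∀ u, u ∉ Y → σ' u = (⟨j, by omega⟩, decide (u = v)) := fun u hu => if_neg hu
    -- avoiding functions
    have havoid : ∀ b ∈ B, ∀ F : V → Finset O, (∀ u, (F u).card ≤ Fintype.card V) →
        ∃ φ : V → O, col φ = e b ∧ φ v = b ∧ ∀ u, u ≠ v → φ u ∉ F u := by
      intro b hb F hF
      obtain ⟨φ, hφ, hφ'⟩ := exists_avoid _ v b (fun φ hφ => (mem_filter.1 hφ).2.2) (he b hb) F hF
      exact ⟨φ, (mem_filter.1 hφ).2.1, (mem_filter.1 hφ).2.2, hφ'⟩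
    -- robustness
    have hrob : ∀ b ∈ B, ∀ (Z : Finset V) (τ : V → Fin t × Bool) (χ : V → O), Y ⊆ Z →
        (∀ u ∈ Y, τ u = σ u) → (∀ u ∈ Z, ∀ v ∈ Z, G.Adj u v → τ u ≠ τ v) →
        (∀ w, w ∉ Z → (v = w ∨ G.Adj v w) → χ w ≠ b) → C (fill q Z τ χ) ≠ e b := by
      intro b hb Z τ χ hYZ hτσ hτ hχ hcon
      obtain ⟨φ, hφ1, hφ2, hφ3⟩ := havoid b hb (near G Z χ) (near_card G Z χ)
      have h5 : C (fill q Y σ φ) ≠ C (fill q Z τ χ) := by
        refine expL_ne hH C (fill_ne G hYZ hτσ hτ ?_)
        intro u _ w hw huw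
        by_cases huv : u = v
        · subst huv
          rw [hφ2]
          exact (hχ w hw huw).symm
        · exact ne_of_not_near G hw huw (hφ3 u huv)
      exact h5 (hφ1.trans hcon.symm)
    have hinj : ∀ b ∈ B, ∀ b' ∈ B, e b = e b' → b = b' := by
      intro b hb b' hb' hee
      by_contra hne
      obtain ⟨ψ, hψ1, hψ2, hψ3⟩ := havoid b' hb' (fun _ => {b}) (fun _ => by
        rw [card_singleton]; omega)
      refine hrob b hb Y σ ψ (Finset.Subset.refl Y) (fun _ _ => rfl) h2 ?_ (hψ1.trans hee.symm)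
      intro w _ _
      by_cases hwv : w = v
      · subst hwv
        rw [hψ2]
        exact fun h => hne h.symm
      · intro h
        exact hψ3 w hwv (by rw [h]; exact mem_singleton_self b)
    have hdisj : Disjoint E (B.image e) := by
      rw [Finset.disjoint_right]
      intro c hc
      obtain ⟨b, hb, rfl⟩ := mem_image.1 hc
      obtain ⟨φ, hφ1, _⟩ := havoid b hb (fun _ => ∅) (fun _ => by simp)
      rw [← hφ1]
      exact h4 Y σ φ (Finset.Subset.refl Y) (fun _ _ => rfl) h2
    refine ⟨Y', σ', E ∪ B.image e, ?_, ?_, ?_, ?_⟩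
    · intro u hu
      by_cases huY : u ∈ Y
      · rw [hσ' u huY]
        have := h1 u huY
        omega
      · rw [hσ'' u huY]
        exact Nat.lt_succ_self j
    · intro u hu w hw huw hcon
      by_cases huY : u ∈ Y <;> by_cases hwY : w ∈ Y
      · rw [hσ' u huY, hσ' w hwY] at hcon
        exact h2 u huY w hwY huw hcon
      · rw [hσ' u huY, hσ'' w hwY] at hcon
        have h5 := h1 u huY
        rw [hcon] at h5
        exact absurd h5 (lt_irrefl _)
      · rw [hσ'' u huY, hσ' w hwY] at hcon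
        have h5 := h1 w hwY
        rw [← hcon] at h5
        exact absurd h5 (lt_irrefl _)
      · rw [hσ'' u huY, hσ'' w hwY] at hcon
        have h5 : decide (u = v) = decide (w = v) := congrArg Prod.snd hcon
        rw [decide_eq_decide] at h5
        have hu' := (mem_filter.1 hu).2
        have hw' := (mem_filter.1 hw).2
        rcases hu' with hu' | hu' | hu'
        · exact huY hu'
        · have hw2 := h5.1 hu'
          rw [hu', hw2] at huw
          exact huw.ne rfl
        · rcases hw' with hw' | hw' | hw'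
          · exact hwY hw'
          · have hu2 := h5.2 hw'
            rw [hu2, hw'] at huw
            exact huw.ne rfl
          · exact hG v u w hu' hw' huw
    · rw [card_union_of_disjoint hdisj, card_image_of_injOn (fun b hb b' hb' h => hinj b hb b' hb' h)]
      have h5 : B.card + (rare col v).card = Fintype.card O := by
        have := card_compl_add_card (rare col v)
        exact this
      have h6 : (j + 1) * Fintype.card O = j * Fintype.card O + Fintype.card O := by ring
      omega
    · intro Z τ φ hYZ hτσ hτ hcon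
      rw [mem_union] at hcon
      have hYZ' : Y ⊆ Z := hYY'.trans hYZ
      have hτσ' : ∀ u ∈ Y, τ u = σ u := fun u hu => (hτσ u (hYY' hu)).trans (hσ' u hu)
      rcases hcon with hcon | hcon
      · exact h4 Z τ φ hYZ' hτσ' hτ hcon
      · obtain ⟨b, hb, hb'⟩ := mem_image.1 hcon
        refine hrob b hb Z τ φ hYZ' hτσ' hτ ?_ hb'.symm
        intro w hw hvw
        exfalso
        apply hw
        apply hYZ
        refine mem_filter.2 ⟨mem_univ _, Or.inr ?_⟩
        rcases hvw with hvw | hvw
        · exact Or.inl hvw.symm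
        · exact Or.inr hvw

end

end Run7.h494.Iter
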